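import Pool.Agent.Lib.MP_b1a3a4_al.MVS.LG.Iface

/-!
# Module DIM (12.3)
-/

set_option linter.all false

namespace Pool.Agent.Lib.MP_b1a3a4_al.MVS.LG.H98

open ContinuousLinearMap

lemma mulAp {H : Type} [NormedAddCommGroup H] [InnerProductSpace ℝ H] (A B : H →L[ℝ] H) (ξ : H) :
    (A * B) ξ = A (B ξ) := rfl

lemma oneAp {H : Type} [NormedAddCommGroup H] [InnerProductSpace ℝ H] (ξ : H) :
    (1 : H →L[ℝ] H) ξ = ξ := rfl

lemma dim_nrm {H : Type} [NormedAddCommGroup H] [InnerProductSpace ℝ H] (ξ : H) :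
    ‖ξ‖ ^ 2 = inner ℝ ξ ξ := by
  rw [real_inner_self_eq_norm_sq]

lemma dim_sub {H : Type} [NormedAddCommGroup H] [InnerProductSpace ℝ H] (ξ η : H) :
    ‖ξ - η‖ ^ 2 = ‖ξ‖ ^ 2 - 2 * inner ℝ ξ η + ‖η‖ ^ 2 := norm_sub_sq_real ξ η

/-- projections are self-adjoint -/
lemma isPr_adj {H : Type} [NormedAddCommGroup H] [InnerProductSpace ℝ H] [CompleteSpace H]
    {P : H →L[ℝ] H} (hP : IsPr P) : adjoint P = P := by
  symm
  rw [ContinuousLinearMap.eq_adjoint_iff]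
  exact hP.symm

lemma isPr_nsq {H : Type} [NormedAddCommGroup H] [InnerProductSpace ℝ H]
    {P : H →L[ℝ] H} (hP : IsPr P) (ξ : H) : ‖ξ - P ξ‖ ^ 2 = ‖ξ‖ ^ 2 - ‖P ξ‖ ^ 2 := by
  have h : inner ℝ ξ (P ξ) = ‖P ξ‖ ^ 2 := by
    rw [dim_nrm, hP.symm, hP.idem]
  rw [dim_sub, h]
  ring

section ops

variable {H H' : Type} [NormedAddCommGroup H] [InnerProductSpace ℝ H] [CompleteSpace H]
    [NormedAddCommGroup H'] [InnerProductSpace ℝ H'] [CompleteSpace H']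

/-- the operator `1 - C* C` -/
noncomputable def opN (C : H →L[ℝ] H') : H →L[ℝ] H :=
  ContinuousLinearMap.id ℝ H - (adjoint C).comp C

/-- the operator `1 - C C*` -/
noncomputable def opM (C : H →L[ℝ] H') : H' →L[ℝ] H' :=
  ContinuousLinearMap.id ℝ H' - C.comp (adjoint C)

lemma opN_apply (C : H →L[ℝ] H') (ξ : H) : opN C ξ = ξ - adjoint C (C ξ) := rfl

lemma opM_apply (C : H →L[ℝ] H') (ξ : H') : opM C ξ = ξ - C (adjoint C ξ) := rfl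

lemma opM_C (C : H →L[ℝ] H') (ξ : H) : opM C (C ξ) = C (opN C ξ) := by
  rw [opM_apply, opN_apply, map_sub]

lemma opM_pow_C (C : H →L[ℝ] H') (i : ℕ) (ξ : H) : (opM C ^ i) (C ξ) = C ((opN C ^ i) ξ) := by
  induction i generalizing ξ with
  | zero => rfl
  | succ i ih =>
    rw [pow_succ, pow_succ, mulAp, mulAp, opM_C, ih]

lemma opM_symm (C : H →L[ℝ] H') (ξ η : H') :
    inner ℝ (opM C ξ) η = inner ℝ ξ (opM C η) := by
  rw [opM_apply, opM_apply, inner_sub_left, inner_sub_right, ← adjoint_inner_right C,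
    ← adjoint_inner_left C]

lemma opM_pow_symm (C : H →L[ℝ] H') (i : ℕ) (ξ η : H') :
    inner ℝ ((opM C ^ i) ξ) η = inner ℝ ξ ((opM C ^ i) η) := by
  induction i generalizing ξ η with
  | zero => rfl
  | succ i ih =>
    have e : (opM C ^ (i + 1)) η = opM C ((opM C ^ i) η) := by rw [pow_succ', mulAp]
    rw [pow_succ, mulAp, ih, opM_symm, ← e]
    rw [pow_succ]

lemma opN_sq (C : H →L[ℝ] H') (ζ : H) :
    ‖ζ‖ ^ 2 - ‖opN C ζ‖ ^ 2 ≤ 2 * ‖C ζ‖ ^ 2 := by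
  rw [opN_apply, dim_sub]
  have h : inner ℝ ζ (adjoint C (C ζ)) = ‖C ζ‖ ^ 2 := by
    rw [adjoint_inner_right, dim_nrm]
  rw [h]
  nlinarith [sq_nonneg ‖adjoint C (C ζ)‖]

lemma opM_sq (C : H →L[ℝ] H') (ε : ℝ) (hε : ‖C‖ ≤ ε) (ζ : H') :
    (2 - ε ^ 2) * ‖adjoint C ζ‖ ^ 2 ≤ ‖ζ‖ ^ 2 - ‖opM C ζ‖ ^ 2 := by
  rw [opM_apply, dim_sub]
  have h : inner ℝ ζ (C (adjoint C ζ)) = ‖adjoint C ζ‖ ^ 2 := by
    rw [← adjoint_inner_left, dim_nrm]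
  rw [h]
  have h2 : ‖C (adjoint C ζ)‖ ^ 2 ≤ (ε * ‖adjoint C ζ‖) ^ 2 := by
    refine pow_le_pow_left₀ (norm_nonneg _) ?_ 2
    exact (C.le_opNorm _).trans (mul_le_mul_of_nonneg_right hε (norm_nonneg _))
  rw [mul_pow] at h2
  linarith

lemma opM_pr (C : H →L[ℝ] H') (P' : H' →L[ℝ] H') (hP' : IsPr P') (h : ∀ ξ, P' (C ξ) = C ξ)
    (t : ℕ) (η : H') : ‖η‖ ^ 2 - ‖P' η‖ ^ 2 ≤ ‖(opM C ^ t) η‖ ^ 2 := by
  have h1 : ∀ ζ, opM C ζ - P' (opM C ζ) = ζ - P' ζ := by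
    intro ζ
    rw [opM_apply, map_sub, h]
    abel
  have h2 : (opM C ^ t) η - P' ((opM C ^ t) η) = η - P' η := by
    induction t with
    | zero => rfl
    | succ t ih => rw [pow_succ', mulAp, h1, ih]
  have h3 := isPr_nsq hP' ((opM C ^ t) η)
  rw [h2, isPr_nsq hP' η] at h3
  nlinarith [sq_nonneg ‖P' ((opM C ^ t) η)‖]

end ops

lemma eqv_adj {T Ω Ω' : Type} [Group T] {α : T →* Equiv.Perm Ω} {β : T →* Equiv.Perm Ω'}
    {A : L2 Ω →L[ℝ] L2 Ω'} (h : Eqv α β A) : Eqv β α (adjoint A) := by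
  intro t η
  refine ext_inner_right ℝ (fun ξ => ?_)
  rw [adjoint_inner_left]
  have h1 : tr (α t) (tr (α t⁻¹) ξ) = ξ := by
    rw [← tr_mul, ← map_mul, mul_inv_cancel, map_one, tr_one]
  have h2 : ξ = tr (α t) (tr (α t⁻¹) ξ) := h1.symm
  rw [h2, h, inner_tr, inner_tr, adjoint_inner_left]

lemma eqv_comp {T Ω Ω' Ω'' : Type} [Group T] {α : T →* Equiv.Perm Ω} {β : T →* Equiv.Perm Ω'}
    {γ : T →* Equiv.Perm Ω''} {A : L2 Ω →L[ℝ] L2 Ω'} {B : L2 Ω' →L[ℝ] L2 Ω''}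
    (h : Eqv α β A) (h' : Eqv β γ B) : Eqv α γ (B.comp A) := by
  intro t ξ
  rw [comp_apply, comp_apply, h, h']

lemma eqv_opN {T Ω Ω' : Type} [Group T] {α : T →* Equiv.Perm Ω} {β : T →* Equiv.Perm Ω'}
    {C : L2 Ω →L[ℝ] L2 Ω'} (h : Eqv α β C) : Eqv α α (opN C) := by
  intro t ξ
  rw [opN_apply, opN_apply, h, eqv_adj h, map_sub]

lemma eqv_pow {T Ω : Type} [Group T] {α : T →* Equiv.Perm Ω}
    {N : L2 Ω →L[ℝ] L2 Ω} (h : Eqv α α N) (i : ℕ) : Eqv α α (N ^ i) := by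
  induction i with
  | zero => intro t ξ; rfl
  | succ i ih => intro t ξ; rw [pow_succ, mulAp, mulAp, h, ih]

/-- the inequality for a small operator -/
lemma dim_aux (h1 : PowStatement) (h2 : HsiStatement) {T Ω Ω' : Type} [Group T]
    (α : T →* Equiv.Perm Ω) (β : T →* Equiv.Perm Ω') (hα : FreeAct α)
    (Y : Finset Ω') (hY : ∀ ω', ∃ t, ∃ y ∈ Y, β t y = ω') (C : L2 Ω →L[ℝ] L2 Ω')
    (P : L2 Ω →L[ℝ] L2 Ω) (P' : L2 Ω' →L[ℝ] L2 Ω') (hP : IsPr P) (hP' : IsPr P')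
    (hC : Eqv α β C) (hCP : ∀ ξ, C (P ξ) = C ξ) (hP'C : ∀ ξ, P' (C ξ) = C ξ)
    (hk : ∀ ξ, C (P ξ) = 0 → P ξ = 0) (ε : ℝ) (hε : 0 ≤ ε) (hε1 : ε ≤ 1) (hn : ‖C‖ ≤ ε)
    (F : Finset Ω) (hF : DiffOrb α F) :
    (2 - ε ^ 2) * ∑ ω ∈ F, ‖P (bv ω)‖ ^ 2 ≤ 2 * ∑ y ∈ Y, ‖P' (bv y)‖ ^ 2 := by
  have hpos : 0 ≤ 2 - ε ^ 2 := by nlinarith
  -- the inequality for every `i`
  have step : ∀ i : ℕ, (2 - ε ^ 2) * ∑ ω ∈ F, (‖(opN C ^ i) (bv ω)‖ ^ 2 -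
      ‖(opN C ^ (i + 1)) (bv ω)‖ ^ 2) ≤
      2 * ∑ y ∈ Y, (‖(opM C ^ i) (bv y)‖ ^ 2 - ‖(opM C ^ (i + 1)) (bv y)‖ ^ 2) := by
    intro i
    have hE : Eqv α β (C.comp (opN C ^ i)) := eqv_comp (eqv_pow (eqv_opN hC) i) hC
    have h3 := h2 T Ω Ω' α β hα Y hY (C.comp (opN C ^ i)) hE F hF
    have hadj : ∀ η, adjoint (C.comp (opN C ^ i)) η = adjoint C ((opM C ^ i) η) := by
      intro η
      refine ext_inner_right ℝ (fun ξ => ?_)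
      rw [adjoint_inner_left, adjoint_inner_left, comp_apply, ← opM_pow_C, ← opM_pow_symm]
    have h4 : ∑ ω ∈ F, (‖(opN C ^ i) (bv ω)‖ ^ 2 - ‖(opN C ^ (i + 1)) (bv ω)‖ ^ 2) ≤
        2 * ∑ ω ∈ F, ‖(C.comp (opN C ^ i)) (bv ω)‖ ^ 2 := by
      rw [Finset.mul_sum]
      refine Finset.sum_le_sum (fun ω _ => ?_)
      rw [comp_apply, pow_succ' (opN C), mulAp]
      exact opN_sq C _
    have h5 : (2 - ε ^ 2) * ∑ y ∈ Y, ‖adjoint (C.comp (opN C ^ i)) (bv y)‖ ^ 2 ≤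
        ∑ y ∈ Y, (‖(opM C ^ i) (bv y)‖ ^ 2 - ‖(opM C ^ (i + 1)) (bv y)‖ ^ 2) := by
      rw [Finset.mul_sum]
      refine Finset.sum_le_sum (fun y _ => ?_)
      rw [hadj, pow_succ' (opM C), mulAp]
      exact opM_sq C ε hn _
    calc (2 - ε ^ 2) * ∑ ω ∈ F, (‖(opN C ^ i) (bv ω)‖ ^ 2 - ‖(opN C ^ (i + 1)) (bv ω)‖ ^ 2)
        ≤ (2 - ε ^ 2) * (2 * ∑ ω ∈ F, ‖(C.comp (opN C ^ i)) (bv ω)‖ ^ 2) :=
          mul_le_mul_of_nonneg_left h4 hpos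
      _ ≤ (2 - ε ^ 2) * (2 * ∑ y ∈ Y, ‖adjoint (C.comp (opN C ^ i)) (bv y)‖ ^ 2) :=
          mul_le_mul_of_nonneg_left (mul_le_mul_of_nonneg_left h3 (by norm_num)) hpos
      _ = 2 * ((2 - ε ^ 2) * ∑ y ∈ Y, ‖adjoint (C.comp (opN C ^ i)) (bv y)‖ ^ 2) := by ring
      _ ≤ _ := mul_le_mul_of_nonneg_left h5 (by norm_num)
  have tel : ∀ t : ℕ, (2 - ε ^ 2) * ∑ ω ∈ F, (1 - ‖(opN C ^ t) (bv ω)‖ ^ 2) ≤
      2 * ∑ y ∈ Y, (1 - ‖(opM C ^ t) (bv y)‖ ^ 2) := by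
    intro t
    induction t with
    | zero =>
      have e1 : ∑ ω ∈ F, (1 - ‖(opN C ^ 0) (bv ω)‖ ^ 2) = 0 := by
        refine Finset.sum_eq_zero (fun ω _ => ?_)
        rw [pow_zero, oneAp, norm_bv]; norm_num
      have e2 : ∑ y ∈ Y, (1 - ‖(opM C ^ 0) (bv y)‖ ^ 2) = 0 := by
        refine Finset.sum_eq_zero (fun ω _ => ?_)
        rw [pow_zero, oneAp, norm_bv]; norm_num
      rw [e1, e2]; simp
    | succ t ih =>
      have h3 := step t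
      simp only [Finset.sum_sub_distrib] at h3 ih ⊢
      linarith
  have h3 : ∀ t : ℕ, (2 - ε ^ 2) * ∑ ω ∈ F, (1 - ‖(opN C ^ t) (bv ω)‖ ^ 2) ≤
      2 * ∑ y ∈ Y, ‖P' (bv y)‖ ^ 2 := by
    intro t
    refine (tel t).trans (mul_le_mul_of_nonneg_left (Finset.sum_le_sum (fun y _ => ?_))
      (by norm_num))
    have := opM_pr C P' hP' hP'C t (bv y)
    rw [norm_bv] at this
    linarith
  have h4 : Filter.Tendsto (fun t : ℕ => (2 - ε ^ 2) * ∑ ω ∈ F, (1 - ‖(opN C ^ t) (bv ω)‖ ^ 2))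
      Filter.atTop (nhds ((2 - ε ^ 2) * ∑ ω ∈ F, ‖P (bv ω)‖ ^ 2)) := by
    refine Filter.Tendsto.const_mul _ (tendsto_finset_sum _ (fun ω _ => ?_))
    have h5 := (h1 (L2 Ω) (L2 Ω') C P (hn.trans hε1) hP hCP hk (bv ω)).2
    have h6 : ‖P (bv ω)‖ ^ 2 = 1 - ‖bv ω - P (bv ω)‖ ^ 2 := by
      rw [isPr_nsq hP, norm_bv]; ring
    rw [h6]
    exact h5.const_sub 1
  exact le_of_tendsto' h4 h3

theorem dim (h1 : PowStatement) (h2 : HsiStatement) : DimStatement := by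
  intro T Ω Ω' _ α β hα Y hY A P P' hP hP' hA hPe hP'e hAP hk F hF
  have key : ∀ ε : ℝ, 0 < ε → ε ≤ 1 →
      (2 - ε ^ 2) * ∑ ω ∈ F, ‖P (bv ω)‖ ^ 2 ≤ 2 * ∑ y ∈ Y, ‖P' (bv y)‖ ^ 2 := by
    intro ε hε hε1
    have hc : 0 < ‖A.comp P‖ + 1 := by positivity
    set s : ℝ := ε / (‖A.comp P‖ + 1) with hs
    have hs0 : 0 < s := div_pos hε hc
    refine dim_aux h1 h2 α β hα Y hY (s • A.comp P) P P' hP hP' ?_ ?_ ?_ ?_ ε hε.le hε1 ?_ F hF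
    · intro t ξ
      simp only [smul_apply, comp_apply, hPe t, hA t, map_smul]
    · intro ξ
      simp only [smul_apply, comp_apply, hP.idem]
    · intro ξ
      simp only [smul_apply, comp_apply, map_smul, hAP]
    · intro ξ h
      simp only [smul_apply, comp_apply, hP.idem] at h
      exact hk ξ ((smul_eq_zero.1 h).resolve_left hs0.ne')
    · rw [norm_smul, Real.norm_eq_abs, abs_of_pos hs0, hs, div_mul_eq_mul_div,
        div_le_iff₀ hc]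
      nlinarith [norm_nonneg (A.comp P)]
  have h3 : Filter.Tendsto (fun k : ℕ => (2 - (1 / ((k : ℝ) + 1)) ^ 2) *
      ∑ ω ∈ F, ‖P (bv ω)‖ ^ 2) Filter.atTop (nhds ((2 - 0 ^ 2) * ∑ ω ∈ F, ‖P (bv ω)‖ ^ 2)) := by
    refine Filter.Tendsto.mul_const _ (Filter.Tendsto.const_sub _ ?_)
    exact tendsto_one_div_add_atTop_nhds_zero_nat.pow 2
  have h4 := le_of_tendsto' h3 (fun k => key (1 / ((k : ℝ) + 1)) (by positivity) (by
    rw [div_le_one (by positivity)]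
    have : (0 : ℝ) ≤ (k : ℝ) := Nat.cast_nonneg k
    linarith))
  linarith

end Pool.Agent.Lib.MP_b1a3a4_al.MVS.LG.H98
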