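import Pool.Agent.Lib.MP_b1a3a4_al.MVS.LG.Iface

/-!
# Module HSI (12.2)
-/

set_option linter.all false

namespace Pool.Agent.Lib.MP_b1a3a4_al.MVS.LG.H98

open Finsupp ENNReal

lemma tsum_cover {T Ω' : Type} (Y : Finset Ω') (b : T → Ω' → Ω')
    (hs : ∀ ω', ∃ t, ∃ y ∈ Y, b t y = ω') (g : Ω' → ENNReal) :
    ∑' ω', g ω' ≤ ∑ y ∈ Y, ∑' t, g (b t y) := by
  have hs' : Function.Surjective (fun p : Y × T => b p.2 (p.1 : Ω')) := by
    intro ω'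
    obtain ⟨t, y, hy, h⟩ := hs ω'
    exact ⟨(⟨y, hy⟩, t), h⟩
  refine (ENNReal.tsum_le_tsum_comp_of_surjective hs' g).trans ?_
  have h := ENNReal.tsum_prod (f := fun (y : Y) (t : T) => g (b t (y : Ω')))
  rw [h, ← Finset.sum_coe_sort Y, tsum_fintype]

lemma tsum_inj {T Ω : Type} (F : Finset Ω) (a : T → Ω → Ω)
    (hi : Function.Injective (fun p : F × T => a p.2 (p.1 : Ω))) (g : Ω → ENNReal) :
    ∑ ω ∈ F, ∑' t, g (a t ω) ≤ ∑' ω, g ω := by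
  refine le_trans ?_ (ENNReal.tsum_comp_le_tsum_of_injective hi g)
  have h := ENNReal.tsum_prod (f := fun (y : F) (t : T) => g (a t (y : Ω)))
  rw [h, ← Finset.sum_coe_sort F, tsum_fintype]

/-- squares of norms as sums in `[0, ∞]` -/
lemma ofReal_norm_sq {Ω : Type} (ξ : L2 Ω) :
    ENNReal.ofReal (‖ξ‖ ^ 2) = ∑' ω, ENNReal.ofReal ((ξ ω) ^ 2) := by
  rw [L2.norm_sq, ENNReal.ofReal_tsum_of_nonneg (fun _ => sq_nonneg _) ξ.summable]

lemma bv_adj {Ω Ω' : Type} (E : L2 Ω →L[ℝ] L2 Ω') (ω : Ω) (y : Ω') :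
    (E (bv ω)) y = (ContinuousLinearMap.adjoint E (bv y)) ω := by
  rw [← inner_bv y, ← inner_bv ω, real_inner_comm, ContinuousLinearMap.adjoint_inner_right]

theorem hsi : HsiStatement := by
  intro T Ω Ω' _ α β hα Y hY E hE F hF
  have key : ∀ (ω : Ω) (t : T) (y : Ω'), (E (bv ω)) (β t y) =
      (ContinuousLinearMap.adjoint E (bv y)) (α t⁻¹ ω) := by
    intro ω t y
    rw [← bv_adj, ← tr_bv, hE, tr_apply]
    congr 1
    rw [map_inv]
    rfl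
  have h1 : ∀ ω ∈ F, ENNReal.ofReal (‖E (bv ω)‖ ^ 2) ≤
      ∑ y ∈ Y, ∑' t, ENNReal.ofReal (((ContinuousLinearMap.adjoint E (bv y)) (α t⁻¹ ω)) ^ 2) := by
    intro ω _
    rw [ofReal_norm_sq]
    refine (tsum_cover Y (fun t => β t) hY
      (fun ω' => ENNReal.ofReal ((E (bv ω) ω') ^ 2))).trans ?_
    refine Finset.sum_le_sum (fun y _ => ?_)
    refine ENNReal.tsum_le_tsum (fun t => ?_)
    rw [key]
  have h2 : ∀ y ∈ Y, ∑ ω ∈ F, ∑' t, ENNReal.ofReal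
      (((ContinuousLinearMap.adjoint E (bv y)) (α t⁻¹ ω)) ^ 2) ≤
      ENNReal.ofReal (‖ContinuousLinearMap.adjoint E (bv y)‖ ^ 2) := by
    intro y _
    rw [ofReal_norm_sq]
    refine tsum_inj F (fun t => α t⁻¹) ?_
      (fun v => ENNReal.ofReal ((ContinuousLinearMap.adjoint E (bv y) v) ^ 2))
    rintro ⟨⟨ω, hω⟩, t⟩ ⟨⟨ω', hω'⟩, t'⟩ h
    have h0 : α t⁻¹ ω = α t'⁻¹ ω' := h
    have h3 : α (t' * t⁻¹) ω = ω' := by
      rw [map_mul, Equiv.Perm.mul_apply, h0, ← Equiv.Perm.mul_apply, ← map_mul, mul_inv_cancel,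
        map_one]
      rfl
    have h4 : ω = ω' := hF ω hω ω' hω' _ h3
    subst h4
    have h5 := hα _ _ h3
    have h6 : t' = t := by
      have := mul_eq_one_iff_eq_inv.1 h5
      rwa [inv_inv] at this
    subst h6
    rfl
  have h3 : ENNReal.ofReal (∑ ω ∈ F, ‖E (bv ω)‖ ^ 2) ≤
      ENNReal.ofReal (∑ y ∈ Y, ‖ContinuousLinearMap.adjoint E (bv y)‖ ^ 2) := by
    rw [ENNReal.ofReal_sum_of_nonneg (fun _ _ => sq_nonneg _),
      ENNReal.ofReal_sum_of_nonneg (fun _ _ => sq_nonneg _)]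
    refine (Finset.sum_le_sum h1).trans ?_
    rw [Finset.sum_comm]
    exact Finset.sum_le_sum h2
  exact (ENNReal.ofReal_le_ofReal_iff (Finset.sum_nonneg (fun _ _ => sq_nonneg _))).1 h3

end Pool.Agent.Lib.MP_b1a3a4_al.MVS.LG.H98
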